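import Pool.Agent.R921.SP.Asm
import Pool.Agent.R928.SP.PartD
import Pool.Agent.R748.SPE.Main
import Pool.Agent.R748.SPG.Main

/-!
# MP_37896c_gt: perimeter along iterated Steiner symmetrizations

For every `n ≥ 3` there are a compact set `E ⊆ ℝⁿ` of finite perimeter with nonempty interior and
unit vectors `u 0, u 1, ...` such that the iterated Steiner symmetrals `E_i` converge in Hausdorff
distance to the closed ball centred at the origin with the volume of `E`, while the perimeters
of the `E_i` stay above the perimeter of this ball by a fixed positive amount.  So the answer to Q1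
is negative for every `n ≥ 3`.

Definitions (all in `Pool/Agent/R921/SP/Defs.lean`): `V n` is `EuclideanSpace ℝ (Fin n)`,
`steiner u E` is the Steiner symmetral, `iter u E i` is `S_{u (i-1)} ... S_{u 0} E`, `divg φ` is the
divergence `∑ i, ∂_i φ_i`, and `perimeter E` is the supremum over all continuously differentiable
compactly supported vector fields `φ` with `|φ| ≤ 1` of the integral of `divg φ` over `E`.
-/

open MeasureTheory Metric Set Filter Topology
open scoped ENNReal

namespace Pool.Agent.Results.MP_37896c_gt.PerimeterGap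

open Pool.Agent.R921.SP

theorem result (n : ℕ) (hn : 3 ≤ n) :
    ∃ (E : Set (EuclideanSpace ℝ (Fin n))) (u : ℕ → EuclideanSpace ℝ (Fin n)) (ρ : ℝ),
      IsCompact E ∧ (interior E).Nonempty ∧ perimeter E < ⊤ ∧ (∀ i, ‖u i‖ = 1) ∧
      0 < ρ ∧ volume (closedBall (0 : EuclideanSpace ℝ (Fin n)) ρ) = volume E ∧
      Tendsto (fun i => hausdorffDist (iter u E i) (closedBall 0 ρ)) atTop (𝓝 0) ∧
      perimeter (closedBall (0 : EuclideanSpace ℝ (Fin n)) ρ) < ⊤ ∧
      (∃ c > (0 : ℝ), ∀ᶠ i in atTop,
        perimeter (closedBall (0 : EuclideanSpace ℝ (Fin n)) ρ) + ENNReal.ofReal c ≤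
          perimeter (iter u E i)) ∧
      ¬ Tendsto (fun i => perimeter (iter u E i)) atTop
        (𝓝 (perimeter (closedBall (0 : EuclideanSpace ℝ (Fin n)) ρ))) := by
  obtain ⟨m, rfl⟩ : ∃ m, n = m + 2 := ⟨n - 2, by omega⟩
  have hm : 1 ≤ m := by omega
  obtain ⟨E, u, hE, hint, hper, hvol, hu, hH, c, hc, hgap⟩ :=
    final stmtD Pool.Agent.R748.SPE.stmtE Pool.Agent.R748.SPG.stmtG m hm
  have hball : perimeter (closedBall (0 : V (m + 2)) 1) ≠ ⊤ := by
    obtain ⟨ε, _, c', hc', h⟩ := Pool.Agent.R748.SPG.stmtG m hm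
    exact ne_top_of_le_ne_top ENNReal.ofReal_ne_top ((le_add_of_nonneg_right bot_le).trans h)
  refine ⟨E, u, 1, hE, hint, lt_top_iff_ne_top.2 hper, hu, one_pos, hvol, hH,
    lt_top_iff_ne_top.2 hball, ⟨c, hc, hgap⟩, fun hlim => ?_⟩
  have hle : perimeter (closedBall (0 : V (m + 2)) 1) + ENNReal.ofReal c ≤
      perimeter (closedBall (0 : V (m + 2)) 1) := ge_of_tendsto hlim hgap
  have hlt : perimeter (closedBall (0 : V (m + 2)) 1) <
      perimeter (closedBall (0 : V (m + 2)) 1) + ENNReal.ofReal c :=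
    ENNReal.lt_add_right hball (by simpa using hc)
  exact absurd hle (not_le.2 hlt)

end Pool.Agent.Results.MP_37896c_gt.PerimeterGap
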